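import Pool.Agent.helper94.SCT.Spec

set_option autoImplicit false

namespace Pool.Agent.SCT

open Finset ArithmeticFunction MeasureTheory

theorem TRV : TRV_stmt := by
  intro φ hφ
  obtain ⟨R, hR0, hR, hRb⟩ := hφ.bound
  refine ⟨?_, ?_, ?_⟩
  · intro N t hN
    have hK : N * Real.exp R ≤ (⌈N * Real.exp R⌉₊ : ℕ) := Nat.le_ceil _
    rw [DL_eq hR hN _ hK, DL_eq hR hN _ hK, map_sum]
    refine sum_congr rfl fun n _ => ?_
    rw [map_mul, map_mul, Complex.conj_ofReal, Complex.conj_ofReal, nu_neg]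
  · intro N hN
    have hK : N * Real.exp R ≤ (⌈N * Real.exp R⌉₊ : ℕ) := Nat.le_ceil _
    have h1 : DL φ N = fun t => ∑ n ∈ Icc 1 ⌈N * Real.exp R⌉₊,
        (vonMangoldt n : ℂ) * (φ (Real.log ((n : ℝ) / N)) : ℂ) * nu t n := by
      funext t
      exact DL_eq hR hN _ hK t
    rw [h1]
    exact continuous_finsetSum _ fun n _ => continuous_const.mul (nu_cont n)
  · refine ⟨R * ((Real.log 4 + 4) * (2 * Real.exp R)), ?_, ?_⟩
    · have : 0 < Real.log 4 := Real.log_pos (by norm_num)
      positivity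
    · intro N t hN
      have hN0 : 0 < N := by linarith
      set K : ℕ := ⌈N * Real.exp R⌉₊ with hKdef
      have hK : N * Real.exp R ≤ K := Nat.le_ceil _
      have hK2 : (K : ℝ) ≤ 2 * Real.exp R * N := by
        have h1 : (K : ℝ) < N * Real.exp R + 1 := Nat.ceil_lt_add_one (by positivity)
        have h2 : 1 ≤ Real.exp R := Real.one_le_exp hR0.le
        have h3 : 1 ≤ N * Real.exp R := by nlinarith
        linarith
      rw [DL_eq hR hN0 K hK]
      have h1 : ∑ n ∈ Icc 1 K, vonMangoldt n ≤ (Real.log 4 + 4) * K := by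
        have h2 := Chebyshev.psi_le_const_mul_self (x := (K : ℝ)) (by positivity)
        have h3 : Chebyshev.psi (K : ℝ) = ∑ n ∈ Icc 1 K, vonMangoldt n := by
          unfold Chebyshev.psi
          rw [Nat.floor_natCast]
          rfl
        rw [← h3]
        exact h2
      calc ‖∑ n ∈ Icc 1 K, (vonMangoldt n : ℂ) * (φ (Real.log ((n : ℝ) / N)) : ℂ) * nu t n‖
          ≤ ∑ n ∈ Icc 1 K, ‖(vonMangoldt n : ℂ) * (φ (Real.log ((n : ℝ) / N)) : ℂ) * nu t n‖ :=
            norm_sum_le _ _
        _ ≤ ∑ n ∈ Icc 1 K, vonMangoldt n * R := by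
            refine sum_le_sum fun n _ => ?_
            rw [norm_mul, norm_mul, nu_norm, mul_one, Complex.norm_real, Complex.norm_real, Real.norm_eq_abs,
              Real.norm_eq_abs, abs_of_nonneg vonMangoldt_nonneg]
            exact mul_le_mul_of_nonneg_left (hRb _) vonMangoldt_nonneg
        _ = R * ∑ n ∈ Icc 1 K, vonMangoldt n := by rw [← sum_mul, mul_comm]
        _ ≤ R * ((Real.log 4 + 4) * K) := mul_le_mul_of_nonneg_left h1 hR0.le
        _ ≤ R * ((Real.log 4 + 4) * (2 * Real.exp R * N)) := by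
            have : 0 < Real.log 4 := Real.log_pos (by norm_num)
            gcongr
        _ = R * ((Real.log 4 + 4) * (2 * Real.exp R)) * N := by ring

end Pool.Agent.SCT
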